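import Mathlib

/-!
# Project SF (MP_d5570f_nt), SF-3: few integers with a given square modulo `p ^ 2`
-/

set_option autoImplicit false

open Finset

namespace Pool.Agent.Helper94.SF

namespace SF3

/-- a residue class meets `[0, K m]` in at most `K + 1` points -/
theorem class_count (m : ℕ) (hm : 0 < m) (K : ℕ) (r : ℕ) (T : Finset ℕ)
    (hT : ∀ n ∈ T, n ≤ K * m ∧ n % m = r) : T.card ≤ K + 1 := by
  have h1 : (T.image (fun n => n / m)) ⊆ Finset.range (K + 1) := by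
    intro q hq
    rw [Finset.mem_image] at hq
    obtain ⟨n, hn, rfl⟩ := hq
    rw [Finset.mem_range]
    have h2 : n / m ≤ K * m / m := Nat.div_le_div_right (hT n hn).1
    rw [Nat.mul_div_cancel _ hm] at h2
    omega
  have h2 : (T.image (fun n => n / m)).card = T.card := by
    apply Finset.card_image_of_injOn
    intro a ha b hb hab
    simp only at hab
    have h3 := Nat.div_add_mod a m
    have h4 := Nat.div_add_mod b m
    rw [(hT a ha).2] at h3
    rw [(hT b hb).2] at h4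
    rw [← h3, ← h4, hab]
  rw [← h2]
  calc _ ≤ _ := Finset.card_le_card h1
    _ = K + 1 := Finset.card_range _

end SF3

/-! ### SF-3: few integers with a given square modulo `p ^ 2` -/

theorem fibre_count (p : ℕ) (hp : p.Prime) (hp2 : p ≠ 2) (b : ℤ) (hb : ¬ (p : ℤ) ∣ b)
    (j : ZMod (p ^ 2)) (K : ℕ) (T : Finset ℕ)
    (hT : ∀ n ∈ T, n ≤ K * p ^ 2 ∧ (n : ZMod (p ^ 2)) ^ 2 * j = (b : ZMod (p ^ 2))) :
    T.card ≤ 2 * (K + 1) := by
  classical
  have hp0 : 0 < p ^ 2 := pow_pos hp.pos 2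
  have : NeZero (p ^ 2) := ⟨hp0.ne'⟩
  rcases T.eq_empty_or_nonempty with h0 | ⟨n0, hn0⟩
  · rw [h0]; simp
  have hpZ : Prime (p : ℤ) := Nat.prime_iff_prime_int.1 hp
  -- `b` is a unit
  have hbu : IsUnit ((b : ℤ) : ZMod (p ^ 2)) := by
    have hcop : IsCoprime b ((p ^ 2 : ℕ) : ℤ) := by
      push_cast
      exact ((Prime.coprime_iff_not_dvd hpZ).2 hb).symm.pow_right
    obtain ⟨u, v, huv⟩ := hcop
    refine IsUnit.of_mul_eq_one ((u : ℤ) : ZMod (p ^ 2)) ?_
    have h1 := congrArg (fun x : ℤ => (x : ZMod (p ^ 2))) huv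
    simp only [Int.cast_add, Int.cast_mul, Int.cast_natCast, ZMod.natCast_self, mul_zero,
      add_zero, Int.cast_one] at h1
    rw [mul_comm]; exact h1
  have hju : IsUnit j := by
    have h1 := (hT n0 hn0).2
    rw [← h1] at hbu
    exact isUnit_of_mul_isUnit_right hbu
  have hnd : ∀ n ∈ T, ¬ (p : ℤ) ∣ (n : ℤ) := by
    intro n hn hdiv
    have h1 := (hT n hn).2
    rw [← h1] at hbu
    have h2 : IsUnit ((n : ZMod (p ^ 2))) := by
      have := isUnit_of_mul_isUnit_left hbu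
      exact (isUnit_pow_iff (by norm_num : (2:ℕ) ≠ 0)).1 this
    rw [ZMod.isUnit_iff_coprime] at h2
    have h3 : Nat.Coprime n p := Nat.Coprime.coprime_dvd_right (dvd_pow_self p two_ne_zero) h2
    have h4 : p ∣ n := by exact_mod_cast hdiv
    have h5 : p ∣ 1 := by
      rw [← h3]; exact Nat.dvd_gcd h4 dvd_rfl
    exact hp.one_lt.ne' (Nat.dvd_one.1 h5)
  -- any solution is `± n0`
  have hpm : ∀ n ∈ T, ((n : ℤ) - n0) % (p ^ 2 : ℕ) = 0 ∨ ((n : ℤ) + n0) % (p ^ 2 : ℕ) = 0 := by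
    intro n hn
    have h1 : ((n : ZMod (p ^ 2))) ^ 2 = ((n0 : ZMod (p ^ 2))) ^ 2 := by
      have := ((hT n hn).2).trans ((hT n0 hn0).2).symm
      exact hju.mul_left_inj.1 this
    have h2 : ((((n : ℤ) - n0) * ((n : ℤ) + n0) : ℤ) : ZMod (p ^ 2)) = 0 := by
      push_cast
      have : ((n : ZMod (p ^ 2)) - n0) * ((n : ZMod (p ^ 2)) + n0) =
          (n : ZMod (p ^ 2)) ^ 2 - (n0 : ZMod (p ^ 2)) ^ 2 := by ring
      rw [this, h1, sub_self]
    rw [ZMod.intCast_zmod_eq_zero_iff_dvd] at h2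
    push_cast at h2 ⊢
    have hnn := hnd n0 hn0
    have h2ne : ¬ (p : ℤ) ∣ 2 := by
      intro h
      have h3 : p ∣ 2 := by exact_mod_cast h
      exact hp2 ((Nat.prime_dvd_prime_iff_eq hp Nat.prime_two).1 h3)
    by_cases h3 : (p : ℤ) ∣ (n : ℤ) - n0
    · -- then `p` does not divide `n + n0`
      have h4 : ¬ (p : ℤ) ∣ (n : ℤ) + n0 := by
        intro h5
        have h6 : (p : ℤ) ∣ 2 * (n0 : ℤ) := by
          have := dvd_sub h5 h3
          have e : ((n : ℤ) + n0) - ((n : ℤ) - n0) = 2 * (n0 : ℤ) := by ring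
          rwa [e] at this
        rcases hpZ.dvd_or_dvd h6 with h7 | h7
        · exact h2ne h7
        · exact hnn h7
      left
      have hc : IsCoprime ((p : ℤ) ^ 2) ((n : ℤ) + n0) :=
        ((Prime.coprime_iff_not_dvd hpZ).2 h4).pow_left
      exact Int.emod_eq_zero_of_dvd (hc.dvd_of_dvd_mul_right h2)
    · right
      have hc : IsCoprime ((p : ℤ) ^ 2) ((n : ℤ) - n0) :=
        ((Prime.coprime_iff_not_dvd hpZ).2 h3).pow_left
      exact Int.emod_eq_zero_of_dvd (hc.dvd_of_dvd_mul_left h2)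
  -- the two classes
  set T1 := T.filter (fun n : ℕ => ((n : ℤ) - n0) % (p ^ 2 : ℕ) = 0) with hT1
  set T2 := T.filter (fun n : ℕ => ((n : ℤ) + n0) % (p ^ 2 : ℕ) = 0) with hT2
  have hsub : T ⊆ T1 ∪ T2 := by
    intro n hn
    rw [Finset.mem_union, hT1, hT2, Finset.mem_filter, Finset.mem_filter]
    rcases hpm n hn with h | h
    · exact Or.inl ⟨hn, h⟩
    · exact Or.inr ⟨hn, h⟩
  have hc1 : T1.card ≤ K + 1 := by
    apply SF3.class_count (p ^ 2) hp0 K (n0 % p ^ 2) T1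
    intro n hn
    rw [hT1, Finset.mem_filter] at hn
    refine ⟨(hT n hn.1).1, ?_⟩
    have h2 : (n : ℤ) % (p ^ 2 : ℕ) = (n0 : ℤ) % (p ^ 2 : ℕ) :=
      Int.emod_eq_emod_iff_emod_sub_eq_zero.2 hn.2
    exact_mod_cast h2
  have hc2 : T2.card ≤ K + 1 := by
    rcases T2.eq_empty_or_nonempty with h0 | ⟨n2, hn2⟩
    · rw [h0]; simp
    apply SF3.class_count (p ^ 2) hp0 K (n2 % p ^ 2) T2
    intro n hn
    have hn' := hn
    rw [hT2, Finset.mem_filter] at hn hn2
    refine ⟨(hT n hn.1).1, ?_⟩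
    have h2 : (n : ℤ) % (p ^ 2 : ℕ) = (n2 : ℤ) % (p ^ 2 : ℕ) := by
      apply Int.emod_eq_emod_iff_emod_sub_eq_zero.2
      have e : (n : ℤ) - n2 = ((n : ℤ) + n0) - ((n2 : ℤ) + n0) := by ring
      rw [e]
      exact Int.emod_eq_zero_of_dvd
        (dvd_sub (Int.dvd_of_emod_eq_zero hn.2) (Int.dvd_of_emod_eq_zero hn2.2))
    exact_mod_cast h2
  calc T.card ≤ (T1 ∪ T2).card := Finset.card_le_card hsub
    _ ≤ T1.card + T2.card := Finset.card_union_le _ _
    _ ≤ 2 * (K + 1) := by omega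

end Pool.Agent.Helper94.SF
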